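import Pool.Agent.Q120.NL.Stm

/-!
# Project NL of helper120, job GR: growth of the gamma factors on the real axis
-/

set_option autoImplicit false

namespace Pool.Agent.Q38.NL

open Complex Filter Topology Set
open Pool.Agent.Q286.GB

/-- `Γ(y + ib)` grows faster than every exponential function -/
theorem gamma_low (b R : ℝ) (hR : 1 ≤ R) : ∃ c : ℝ, 0 < c ∧ ∀ y : ℝ, 1 ≤ y →
    c * R ^ y ≤ ‖Complex.Gamma ((y : ℂ) + (b : ℂ) * I)‖ := by
  have hR0 : 0 < R := by linarith
  have hre : ∀ y : ℝ, ((y : ℂ) + (b : ℂ) * I).re = y := fun y => by simp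
  have hne : ∀ y : ℝ, 1 ≤ y → Complex.Gamma ((y : ℂ) + (b : ℂ) * I) ≠ 0 := fun y hy =>
    Complex.Gamma_ne_zero_of_re_pos (by rw [hre]; linarith)
  have hcont : ContinuousOn (fun y : ℝ => ‖Complex.Gamma ((y : ℂ) + (b : ℂ) * I)‖ / R ^ y) (Icc 1 (R + 1)) := by
    refine ContinuousOn.div ?_ ?_ fun y _ => (Real.rpow_pos_of_pos hR0 y).ne'
    · refine ContinuousOn.norm ?_
      intro y hy
      have h1 : ContinuousAt Complex.Gamma ((y : ℂ) + (b : ℂ) * I) := by
        refine (Complex.differentiableAt_Gamma _ fun m => ?_).continuousAt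
        intro h
        have h2 := congrArg Complex.re h
        rw [hre] at h2
        simp only [neg_re, natCast_re] at h2
        have h3 : (0 : ℝ) ≤ m := Nat.cast_nonneg m
        have h4 := hy.1
        linarith
      have h2 : ContinuousAt (fun y : ℝ => (y : ℂ) + (b : ℂ) * I) y := by
        exact Continuous.continuousAt (by fun_prop)
      exact (ContinuousAt.comp (f := fun y : ℝ => (y : ℂ) + (b : ℂ) * I) h1 h2).continuousWithinAt
    · exact (Real.continuous_const_rpow hR0.ne').continuousOn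
  obtain ⟨y₀, hy₀, hmin⟩ := isCompact_Icc.exists_isMinOn (nonempty_Icc.2 (by linarith)) hcont
  refine ⟨‖Complex.Gamma ((y₀ : ℂ) + (b : ℂ) * I)‖ / R ^ y₀, div_pos (norm_pos_iff.2 (hne y₀ hy₀.1))
    (Real.rpow_pos_of_pos hR0 _), ?_⟩
  generalize hc : ‖Complex.Gamma ((y₀ : ℂ) + (b : ℂ) * I)‖ / R ^ y₀ = c at *
  have hc0 : 0 < c := by
    rw [← hc]
    exact div_pos (norm_pos_iff.2 (hne y₀ hy₀.1)) (Real.rpow_pos_of_pos hR0 _)
  have key : ∀ n : ℕ, ∀ y : ℝ, 1 ≤ y → y ≤ R + 1 + n → c * R ^ y ≤ ‖Complex.Gamma ((y : ℂ) + (b : ℂ) * I)‖ := by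
    intro n
    induction n with
    | zero =>
      intro y h1 h2
      have h3 := hmin ⟨h1, by simpa using h2⟩
      simp only [mem_setOf_eq] at h3
      rw [hc, le_div_iff₀ (Real.rpow_pos_of_pos hR0 _)] at h3
      exact h3
    | succ n ih =>
      intro y h1 h2
      rcases le_or_gt y (R + 1 + n) with h3 | h3
      · exact ih y h1 h3
      · have hn0 : (0 : ℝ) ≤ n := Nat.cast_nonneg n
        push_cast at h2
        have h4 := ih (y - 1) (by linarith) (by linarith)
        have h5 : ((y - 1 : ℝ) : ℂ) + (b : ℂ) * I ≠ 0 := by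
          intro h
          have h6 := congrArg Complex.re h
          rw [hre, zero_re] at h6
          linarith
        have h6 := Complex.Gamma_add_one _ h5
        have h7 : ((y - 1 : ℝ) : ℂ) + (b : ℂ) * I + 1 = (y : ℂ) + (b : ℂ) * I := by
          push_cast
          ring
        rw [h7] at h6
        rw [h6, norm_mul]
        have h8 : R ≤ ‖((y - 1 : ℝ) : ℂ) + (b : ℂ) * I‖ := by
          have h9 := Complex.abs_re_le_norm (((y - 1 : ℝ) : ℂ) + (b : ℂ) * I)
          rw [hre] at h9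
          have h10 := le_abs_self (y - 1)
          linarith
        have h9 : R ^ y = R * R ^ (y - 1) := by
          rw [Real.rpow_sub_one hR0.ne']
          field_simp
        calc c * R ^ y = R * (c * R ^ (y - 1)) := by
              rw [h9]
              ring
          _ ≤ _ := mul_le_mul h8 h4 (by positivity) (norm_nonneg _)
  intro y hy
  obtain ⟨n, hn⟩ := exists_nat_ge (y - (R + 1))
  exact key n y hy (by linarith)

/-- the same for `Γ_ℝ` -/
theorem gammaR_low (μ : ℂ) (q : ℝ) (hq : 1 ≤ q) : ∃ c x₀ : ℝ, 0 < c ∧ ∀ x : ℝ, x₀ ≤ x →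
    c * q ^ (x / 2) ≤ ‖Gammaℝ ((x : ℂ) - μ)‖ := by
  have hpi := Real.pi_gt_three
  have hpi0 := Real.pi_pos
  have hq0 : 0 < q := by linarith
  obtain ⟨c, hc, h⟩ := gamma_low (-μ.im / 2) (Real.pi * q) (by nlinarith)
  refine ⟨c * q ^ (-(μ.re / 2)), 2 + μ.re, by positivity, ?_⟩
  intro x hx
  have h1 := h ((x - μ.re) / 2) (by linarith)
  have h2 : (((x - μ.re) / 2 : ℝ) : ℂ) + ((-μ.im / 2 : ℝ) : ℂ) * I = ((x : ℂ) - μ) / 2 := by
    apply Complex.ext
    · simp
    · simp
  rw [h2] at h1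
  rw [Complex.Gammaℝ_def, norm_mul, Complex.norm_cpow_eq_rpow_re_of_pos hpi0]
  have h3 : (-((x : ℂ) - μ) / 2).re = -((x - μ.re) / 2) := by
    simp
    ring
  rw [h3]
  calc c * q ^ (-(μ.re / 2)) * q ^ (x / 2) = Real.pi ^ (-((x - μ.re) / 2)) * (c * (Real.pi * q) ^ ((x - μ.re) / 2)) := by
        rw [Real.mul_rpow hpi0.le hq0.le, mul_assoc, ← Real.rpow_add hq0]
        have e1 : Real.pi ^ (-((x - μ.re) / 2)) * Real.pi ^ ((x - μ.re) / 2) = 1 := by
          rw [← Real.rpow_add hpi0, neg_add_cancel, Real.rpow_zero]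
        have e2 : -(μ.re / 2) + x / 2 = (x - μ.re) / 2 := by ring
        rw [e2]
        calc c * q ^ ((x - μ.re) / 2) = (Real.pi ^ (-((x - μ.re) / 2)) * Real.pi ^ ((x - μ.re) / 2)) *
              (c * q ^ ((x - μ.re) / 2)) := by rw [e1, one_mul]
          _ = _ := by ring
    _ ≤ _ := mul_le_mul_of_nonneg_left h1 (by positivity)

/-- **JOB GR.** -/
theorem t_GR : Pool.Agent.Q120.NL.J_GR := by
  intro m N μ hm hN
  obtain ⟨q, hq⟩ : ∃ q : ℝ, q = max 1 (4 / N) := ⟨_, rfl⟩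
  have hq1 : 1 ≤ q := by
    rw [hq]
    exact le_max_left _ _
  have hq0 : 0 < q := by linarith
  have hNq : 4 ≤ N * q := by
    have h1 : 4 / N ≤ q := by
      rw [hq]
      exact le_max_right _ _
    rwa [div_le_iff₀ hN, mul_comm] at h1
  choose c x₀ hc h using fun j => gammaR_low (μ j) q hq1
  have hC : 0 < ∏ j, c j := Finset.prod_pos fun j _ => hc j
  have hlow : ∀ᶠ x : ℝ in atTop, (∏ j, c j) * (2 : ℝ) ^ x ≤ ‖gam N μ x‖ := by
    have h1 : ∀ᶠ x : ℝ in atTop, ∀ j, x₀ j ≤ x := eventually_all.2 fun j => eventually_ge_atTop (x₀ j)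
    filter_upwards [h1, eventually_ge_atTop 0] with x hx hx0
    unfold gam
    rw [norm_mul, norm_prod, Complex.norm_cpow_eq_rpow_re_of_pos hN]
    have h2 : ((x : ℂ) / 2).re = x / 2 := by simp
    rw [h2]
    have h3 : ∏ j, (c j * q ^ (x / 2)) ≤ ∏ j, ‖Gammaℝ ((x : ℂ) - μ j)‖ :=
      Finset.prod_le_prod (fun j _ => by have := hc j; positivity) fun j _ => h j x (hx j)
    rw [Finset.prod_mul_distrib, Finset.prod_const, Finset.card_univ, Fintype.card_fin] at h3
    have h4 : q ^ (x / 2) ≤ (q ^ (x / 2)) ^ m := by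
      have h5 : 1 ≤ q ^ (x / 2) := Real.one_le_rpow hq1 (by linarith)
      exact le_self_pow₀ h5 (by omega)
    have h5 : (2 : ℝ) ^ x ≤ N ^ (x / 2) * q ^ (x / 2) := by
      rw [← Real.mul_rpow hN.le hq0.le]
      calc (2 : ℝ) ^ x = (4 : ℝ) ^ (x / 2) := by
            rw [show (4 : ℝ) = 2 ^ (2 : ℝ) by norm_num, ← Real.rpow_mul (by norm_num)]
            congr 1
            ring
        _ ≤ _ := Real.rpow_le_rpow (by norm_num) hNq (by linarith)
    calc (∏ j, c j) * (2 : ℝ) ^ x ≤ (∏ j, c j) * (N ^ (x / 2) * q ^ (x / 2)) :=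
          mul_le_mul_of_nonneg_left h5 hC.le
      _ = N ^ (x / 2) * ((∏ j, c j) * q ^ (x / 2)) := by ring
      _ ≤ N ^ (x / 2) * ((∏ j, c j) * (q ^ (x / 2)) ^ m) := by
          refine mul_le_mul_of_nonneg_left (mul_le_mul_of_nonneg_left h4 hC.le) (by positivity)
      _ ≤ _ := mul_le_mul_of_nonneg_left h3 (by positivity)
  refine tendsto_atTop_mono' atTop hlow ?_
  refine Tendsto.const_mul_atTop hC ?_
  exact tendsto_rpow_atTop_of_base_gt_one 2 (by norm_num)

end Pool.Agent.Q38.NL
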